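import Mathlib

/-!
# Module Cmb.Turan : Turan's theorem in density form, for sets of ordered pairs
-/

namespace PoolCmb

open Finset

theorem turan (K : ℕ) (hK : 1 ≤ K) (ε : ℝ) (hε : 0 < ε) : ∃ m₀ : ℕ, ∀ m : ℕ, m₀ ≤ m →
    ∀ E : Finset (Fin m × Fin m), (∀ q ∈ E, q.1 < q.2) →
      (1 - 1 / (K : ℝ) + ε) * ((m : ℝ) * (m - 1) / 2) ≤ (E.card : ℝ) →
      ∃ c : Fin (K + 1) → Fin m, StrictMono c ∧ ∀ k l, k < l → (c k, c l) ∈ E := by
  classical
  have hKr : (1 : ℝ) ≤ K := by exact_mod_cast hK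
  obtain ⟨m₁, hm₁⟩ := exists_nat_gt (((K : ℝ) - 1 + K * ε) / (K * ε))
  refine ⟨max 1 m₁, fun m hm E hE hcard => ?_⟩
  have hm1 : 1 ≤ m := le_trans (le_max_left _ _) hm
  have hmm : (m₁ : ℝ) ≤ m := by exact_mod_cast le_trans (le_max_right _ _) hm
  have hbig : (K : ℝ) - 1 + K * ε < m * (K * ε) := by
    have := lt_of_lt_of_le hm₁ hmm
    rwa [div_lt_iff₀ (by positivity)] at this
  let G : SimpleGraph (Fin m) :=
    { Adj := fun i j => (i, j) ∈ E ∨ (j, i) ∈ E
      symm := ⟨fun i j h => h.symm⟩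
      loopless := ⟨fun i h => by
        rcases h with h | h <;> exact absurd (hE _ h) (lt_irrefl _)⟩ }
  have hle : E.card ≤ G.edgeFinset.card := by
    refine Finset.card_le_card_of_injOn (fun q => s(q.1, q.2)) ?_ ?_
    · intro q hq
      simp only [SimpleGraph.coe_edgeFinset, SimpleGraph.mem_edgeSet]
      exact Or.inl hq
    · intro q hq q' hq' h
      have h1 := hE q hq
      have h2 := hE q' hq'
      rcases Sym2.eq_iff.1 h with ⟨h3, h4⟩ | ⟨h3, h4⟩
      · exact Prod.ext h3 h4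
      · exfalso
        rw [h3, h4] at h1
        exact lt_asymm h1 h2
  have hnf : ¬ G.CliqueFree (K + 1) := by
    intro cf
    obtain ⟨H, _, maxH⟩ := SimpleGraph.exists_isTuranMaximal (V := Fin m) (r := K) hK
    have h1 : G.edgeFinset.card ≤ H.edgeFinset.card := by
      convert maxH.2 cf
    rw [((SimpleGraph.isTuranMaximal_iff_nonempty_iso_turanGraph hK).mp
      maxH).some.card_edgeFinset_eq] at h1
    have h2 := SimpleGraph.mul_card_edgeFinset_turanGraph_le (n := Fintype.card (Fin m)) (r := K)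
    have h3 : 2 * K * E.card ≤ (K - 1) * m ^ 2 := by
      have h4 : 2 * K * E.card ≤
          2 * K * (SimpleGraph.turanGraph (Fintype.card (Fin m)) K).edgeFinset.card :=
        Nat.mul_le_mul_left _ (hle.trans h1)
      refine h4.trans (h2.trans (le_of_eq ?_))
      rw [Fintype.card_fin]
    have h5 : 2 * (K : ℝ) * E.card ≤ ((K : ℝ) - 1) * m ^ 2 := by
      have : ((2 * K * E.card : ℕ) : ℝ) ≤ (((K - 1) * m ^ 2 : ℕ) : ℝ) := by exact_mod_cast h3
      push_cast [Nat.cast_sub hK] at this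
      exact this
    have h6 : ((K : ℝ) - 1 + K * ε) * (m * (m - 1)) ≤ ((K : ℝ) - 1) * m ^ 2 := by
      refine le_trans ?_ h5
      have h7 : ((K : ℝ) - 1 + K * ε) * (m * (m - 1)) =
          2 * K * ((1 - 1 / (K : ℝ) + ε) * ((m : ℝ) * (m - 1) / 2)) := by
        field_simp
      rw [h7]
      exact mul_le_mul_of_nonneg_left hcard (by positivity)
    have hmr : (1 : ℝ) ≤ m := by exact_mod_cast hm1
    nlinarith
  unfold SimpleGraph.CliqueFree at hnf
  push Not at hnf
  obtain ⟨s, hs⟩ := hnf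
  refine ⟨s.orderEmbOfFin hs.card_eq, (s.orderEmbOfFin hs.card_eq).strictMono, fun k l hkl => ?_⟩
  have hlt : s.orderEmbOfFin hs.card_eq k < s.orderEmbOfFin hs.card_eq l :=
    (s.orderEmbOfFin hs.card_eq).strictMono hkl
  have hadj := hs.isClique (s.orderEmbOfFin_mem hs.card_eq k) (s.orderEmbOfFin_mem hs.card_eq l)
    hlt.ne
  rcases hadj with h | h
  · exact h
  · exact absurd (hE _ h) (not_lt.2 hlt.le)

end PoolCmb
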