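import Pool.Agent.Work.MP_70e905_nt.Cmb.Box
import Pool.Agent.Work.MP_70e905_nt.Cmb.Turan

/-!
# Module Cmb.Blow : multipartite Turan with blow-ups (Erdos-Stone for the complement)

`m` parts of size `n`; `r i j a b` (for `i < j`) is a relation between the `a`-th element of part
`i` and the `b`-th element of part `j`. If its density is at most `1 / K - ε` on average over the
pairs of parts, then some `K + 1` parts contain subsets of size `L` with no relations across.
-/

namespace PoolCmb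

open Finset

/-- The number of `σ` whose restriction along an injective `c` lies in `H`. -/
theorem card_restrict {ι : Type} [Fintype ι] [DecidableEq ι] {m n : ℕ} (c : ι → Fin m)
    (hc : Function.Injective c) (H : Finset (ι → Fin n)) :
    ((Finset.univ : Finset (Fin m → Fin n)).filter (fun σ => (fun k => σ (c k)) ∈ H)).card ≤
      H.card * n ^ (m - Fintype.card ι) := by
  classical
  have hfib : ∀ τ ∈ H, (((Finset.univ : Finset (Fin m → Fin n)).filter
      (fun σ => (fun k => σ (c k)) ∈ H)).filter (fun σ => (fun k => σ (c k)) = τ)).card ≤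
        n ^ (m - Fintype.card ι) := by
    intro τ _
    have h1 : Fintype.card ({j : Fin m // j ∉ Set.range c} → Fin n) =
        n ^ (m - Fintype.card ι) := by
      rw [Fintype.card_fun, Fintype.card_fin]
      congr 1
      have h2 : Fintype.card {j : Fin m // ¬ j ∈ Set.range c} =
          Fintype.card (Fin m) - Fintype.card {j : Fin m // j ∈ Set.range c} :=
        Fintype.card_subtype_compl _
      have h3 : Fintype.card {j : Fin m // j ∈ Set.range c} = Fintype.card ι :=
        (Fintype.card_congr (Equiv.ofInjective c hc)).symm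
      rw [h3, Fintype.card_fin] at h2
      exact h2
    rw [← h1, ← Finset.card_univ]
    refine Finset.card_le_card_of_injOn
      (fun σ => fun k : {j : Fin m // j ∉ Set.range c} => σ k)
      (fun _ _ => Finset.mem_coe.2 (Finset.mem_univ _)) ?_
    intro σ hσ σ' hσ' h
    have h3 := (Finset.mem_filter.1 (Finset.mem_coe.1 hσ)).2
    have h4 := (Finset.mem_filter.1 (Finset.mem_coe.1 hσ')).2
    funext j
    by_cases hj : j ∈ Set.range c
    · obtain ⟨k, rfl⟩ := hj
      have h5 := congrFun h3 k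
      have h6 := congrFun h4 k
      rw [h5, h6]
    · exact congrFun h ⟨j, hj⟩
  have hmap : ∀ σ ∈ (Finset.univ : Finset (Fin m → Fin n)).filter
      (fun σ => (fun k => σ (c k)) ∈ H), (fun k => σ (c k)) ∈ H :=
    fun σ hσ => (Finset.mem_filter.1 hσ).2
  rw [Finset.card_eq_sum_card_fiberwise hmap]
  refine (Finset.sum_le_sum hfib).trans (le_of_eq ?_)
  rw [Finset.sum_const, smul_eq_mul]

/-- The number of pairs `i < j` of indices below `m`. -/
theorem card_pairs (m : ℕ) :
    (((Finset.univ : Finset (Fin m × Fin m)).filter (fun q => q.1 < q.2)).card : ℝ) =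
      (m : ℝ) * (m - 1) / 2 := by
  have h1 : ((Finset.univ : Finset (Fin m × Fin m)).filter (fun q => q.1 < q.2)).card =
      m.choose 2 := by
    have h2 := Finset.card_powersetCard 2 (Finset.univ : Finset (Fin m))
    rw [Finset.card_univ, Fintype.card_fin] at h2
    rw [← h2]
    refine Finset.card_bij (fun q _ => {q.1, q.2}) ?_ ?_ ?_
    · intro q hq
      have hlt : q.1 < q.2 := (Finset.mem_filter.1 hq).2
      rw [Finset.mem_powersetCard]
      exact ⟨Finset.subset_univ _, Finset.card_pair hlt.ne⟩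
    · intro q hq q' hq' h
      have hlt : q.1 < q.2 := (Finset.mem_filter.1 hq).2
      have hlt' : q'.1 < q'.2 := (Finset.mem_filter.1 hq').2
      have h3 : q.1 = q'.1 ∨ q.1 = q'.2 := by
        have : q.1 ∈ ({q'.1, q'.2} : Finset (Fin m)) := by
          rw [← h]; simp
        simpa using this
      have h4 : q.2 = q'.1 ∨ q.2 = q'.2 := by
        have : q.2 ∈ ({q'.1, q'.2} : Finset (Fin m)) := by
          rw [← h]; simp
        simpa using this
      rcases h3 with h3 | h3 <;> rcases h4 with h4 | h4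
      · rw [h3, h4] at hlt; exact absurd hlt (lt_irrefl _)
      · exact Prod.ext h3 h4
      · rw [h3, h4] at hlt; exact absurd hlt (lt_asymm hlt')
      · rw [h3, h4] at hlt; exact absurd hlt (lt_irrefl _)
    · intro s hs
      obtain ⟨_, hs2⟩ := Finset.mem_powersetCard.1 hs
      obtain ⟨x, y, hxy, rfl⟩ := Finset.card_eq_two.1 hs2
      rcases lt_or_gt_of_ne hxy with h | h
      · exact ⟨(x, y), Finset.mem_filter.2 ⟨Finset.mem_univ _, h⟩, rfl⟩
      · exact ⟨(y, x), Finset.mem_filter.2 ⟨Finset.mem_univ _, h⟩, Finset.pair_comm _ _⟩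
  rw [h1, Nat.cast_choose_two]

/-- The relation set along a transversal. -/
def bad {m n : ℕ} (r : Fin m → Fin m → Fin n → Fin n → Prop) [∀ i j a b, Decidable (r i j a b)]
    (σ : Fin m → Fin n) : Finset (Fin m × Fin m) :=
  ((Finset.univ : Finset (Fin m × Fin m)).filter (fun q => q.1 < q.2)).filter
    fun q => r q.1 q.2 (σ q.1) (σ q.2)

theorem sum_bad {m n : ℕ} (r : Fin m → Fin m → Fin n → Fin n → Prop)
    [∀ i j a b, Decidable (r i j a b)] :
    ∑ σ : Fin m → Fin n, (bad r σ).card ≤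
      (∑ q ∈ (Finset.univ : Finset (Fin m × Fin m)).filter (fun q => q.1 < q.2),
            ((Finset.univ : Finset (Fin n × Fin n)).filter
              (fun p => r q.1 q.2 p.1 p.2)).card) * n ^ (m - 2) := by
  classical
  have h1 : ∑ σ : Fin m → Fin n, (bad r σ).card =
      ∑ q ∈ (Finset.univ : Finset (Fin m × Fin m)).filter (fun q => q.1 < q.2),
        ((Finset.univ : Finset (Fin m → Fin n)).filter
          fun σ => r q.1 q.2 (σ q.1) (σ q.2)).card := by
    simp only [bad, Finset.card_filter _ (Finset.filter _ _), Finset.card_filter]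
    rw [Finset.sum_comm]
  rw [h1, Finset.sum_mul]
  refine Finset.sum_le_sum fun q hq => ?_
  have hlt : q.1 < q.2 := (Finset.mem_filter.1 hq).2
  have h3 := card_restrict (n := n) (ι := Fin 2) ![q.1, q.2] (by
    intro a b hab
    fin_cases a <;> fin_cases b <;> simp_all [hlt.ne, hlt.ne'])
    ((Finset.univ : Finset (Fin 2 → Fin n)).filter fun τ => r q.1 q.2 (τ 0) (τ 1))
  rw [Fintype.card_fin] at h3
  have h4 : ((Finset.univ : Finset (Fin 2 → Fin n)).filter
      fun τ => r q.1 q.2 (τ 0) (τ 1)).card = ((Finset.univ : Finset (Fin n × Fin n)).filter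
          (fun p => r q.1 q.2 p.1 p.2)).card := by
    refine Finset.card_bij (fun τ _ => (τ 0, τ 1)) ?_ ?_ ?_
    · intro τ hτ
      exact Finset.mem_filter.2 ⟨Finset.mem_univ _, (Finset.mem_filter.1 hτ).2⟩
    · intro τ _ τ' _ h
      have h5 : τ 0 = τ' 0 := congrArg Prod.fst h
      have h6 : τ 1 = τ' 1 := congrArg Prod.snd h
      funext a
      fin_cases a
      · exact h5
      · exact h6
    · intro p hp
      refine ⟨![p.1, p.2], Finset.mem_filter.2 ⟨Finset.mem_univ _, ?_⟩, ?_⟩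
      · simpa using (Finset.mem_filter.1 hp).2
      · simp
  rw [h4] at h3
  refine le_trans (Finset.card_le_card ?_) h3
  intro σ hσ
  rw [Finset.mem_filter] at hσ ⊢
  refine ⟨Finset.mem_univ _, ?_⟩
  rw [Finset.mem_filter]
  exact ⟨Finset.mem_univ _, by simpa using hσ.2⟩

/-- Markov's inequality, in the form used below. -/
theorem many_good {Ω : Type} [Fintype Ω] (f : Ω → ℕ) (κ ε M : ℝ) (hκ : κ ≤ 1) (hε : 0 < ε)
    (hM : 0 < M)
    (hsum : (∑ σ, (f σ : ℝ)) ≤ (κ - ε) * M * (Fintype.card Ω : ℝ)) :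
    ε / 2 * (Fintype.card Ω : ℝ) ≤
      (((Finset.univ : Finset Ω).filter fun σ => (f σ : ℝ) ≤ (κ - ε / 2) * M).card : ℝ) := by
  classical
  set T : Finset Ω := (Finset.univ : Finset Ω).filter fun σ => (f σ : ℝ) ≤ (κ - ε / 2) * M with hTd
  set N : ℝ := (Fintype.card Ω : ℝ) with hN
  have hN0 : 0 ≤ N := Nat.cast_nonneg _
  have h1 : ((Finset.univ \ T).card : ℝ) * ((κ - ε / 2) * M) ≤ (κ - ε) * M * N := by
    refine le_trans ?_ hsum
    calc ((Finset.univ \ T).card : ℝ) * ((κ - ε / 2) * M)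
        = ∑ _σ ∈ Finset.univ \ T, ((κ - ε / 2) * M) := by
          rw [Finset.sum_const, nsmul_eq_mul]
      _ ≤ ∑ σ ∈ Finset.univ \ T, (f σ : ℝ) := by
          refine Finset.sum_le_sum fun σ hσ => ?_
          have h2 := (Finset.mem_sdiff.1 hσ).2
          have h3 : ¬ (f σ : ℝ) ≤ (κ - ε / 2) * M := fun h =>
            h2 (Finset.mem_filter.2 ⟨Finset.mem_univ _, h⟩)
          exact (not_le.1 h3).le
      _ ≤ ∑ σ, (f σ : ℝ) :=
          Finset.sum_le_sum_of_subset_of_nonneg (Finset.subset_univ _)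
            fun _ _ _ => Nat.cast_nonneg _
  have h2 : ((Finset.univ \ T).card : ℝ) + T.card = N := by
    have h3 := Finset.card_sdiff_add_card_eq_card (Finset.subset_univ T)
    rw [Finset.card_univ] at h3
    rw [hN]
    exact_mod_cast h3
  have h4 : ((Finset.univ \ T).card : ℝ) * (κ - ε / 2) ≤ (κ - ε) * N := by
    have h5 : ((Finset.univ \ T).card : ℝ) * (κ - ε / 2) * M ≤ (κ - ε) * N * M := by linarith
    exact le_of_mul_le_mul_right h5 hM
  have h6 : (0 : ℝ) ≤ T.card := Nat.cast_nonneg _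
  have h8 : ((Finset.univ \ T).card : ℝ) = N - T.card := by linarith
  rw [h8] at h4
  have h9 : ε / 2 * N ≤ (T.card : ℝ) * (κ - ε / 2) := by linarith
  refine h9.trans ?_
  calc (T.card : ℝ) * (κ - ε / 2) ≤ (T.card : ℝ) * 1 :=
        mul_le_mul_of_nonneg_left (by linarith) h6
    _ = T.card := mul_one _

/-- Pigeonhole: if each of many transversals has a good `(K+1)`-tuple of parts, one tuple of parts
works for many restricted transversals. -/
theorem pigeon {m n k : ℕ} (hn : 1 ≤ n) (hm : 1 ≤ m) (δ : ℝ) (hδ : 0 < δ)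
    (T : Finset (Fin m → Fin n)) (hT : δ * (n : ℝ) ^ m ≤ (T.card : ℝ))
    (H : (Fin k → Fin m) → Finset (Fin k → Fin n))
    (hcl : ∀ σ ∈ T, ∃ c : Fin k → Fin m, StrictMono c ∧ (fun j => σ (c j)) ∈ H c) :
    ∃ c : Fin k → Fin m, StrictMono c ∧
      δ / (Fintype.card (Fin k → Fin m) : ℝ) * (n : ℝ) ^ k ≤ ((H c).card : ℝ) := by
  classical
  have hnr : (1 : ℝ) ≤ n := by exact_mod_cast hn
  have hcN : (0 : ℝ) < (Fintype.card (Fin k → Fin m) : ℝ) := by
    have : Nonempty (Fin m) := ⟨⟨0, by lia⟩⟩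
    exact_mod_cast Fintype.card_pos
  have hcov : T ⊆ ((Finset.univ : Finset (Fin k → Fin m)).filter StrictMono).biUnion
      fun c => (Finset.univ : Finset (Fin m → Fin n)).filter
        fun σ => (fun j => σ (c j)) ∈ H c := by
    intro σ hσ
    obtain ⟨c, hc, hc2⟩ := hcl σ hσ
    exact Finset.mem_biUnion.2 ⟨c, Finset.mem_filter.2 ⟨Finset.mem_univ _, hc⟩,
      Finset.mem_filter.2 ⟨Finset.mem_univ _, hc2⟩⟩
  by_contra hno
  push Not at hno
  have h1 : (T.card : ℝ) ≤ ∑ c ∈ (Finset.univ : Finset (Fin k → Fin m)).filter StrictMono,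
      ((H c).card : ℝ) * (n : ℝ) ^ (m - k) := by
    have h2 : T.card ≤ ∑ c ∈ (Finset.univ : Finset (Fin k → Fin m)).filter StrictMono,
        (H c).card * n ^ (m - k) := by
      refine (Finset.card_le_card hcov).trans (Finset.card_biUnion_le.trans ?_)
      refine Finset.sum_le_sum fun c hc => ?_
      have h3 := card_restrict (n := n) c (Finset.mem_filter.1 hc).2.injective (H c)
      rwa [Fintype.card_fin] at h3
    exact_mod_cast h2
  have hTpos : (0 : ℝ) < (T.card : ℝ) := lt_of_lt_of_le (by positivity) hT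
  have hne : ((Finset.univ : Finset (Fin k → Fin m)).filter StrictMono).Nonempty := by
    by_contra hemp
    rw [Finset.not_nonempty_iff_eq_empty] at hemp
    rw [hemp, Finset.sum_empty] at h1
    linarith
  obtain ⟨c₀, hc₀⟩ := hne
  have hKm : k ≤ m := by
    have := Fintype.card_le_of_injective c₀ (Finset.mem_filter.1 hc₀).2.injective
    simpa using this
  set δ' : ℝ := δ / (Fintype.card (Fin k → Fin m) : ℝ) with hδ'
  have h4 : ∑ c ∈ (Finset.univ : Finset (Fin k → Fin m)).filter StrictMono,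
      ((H c).card : ℝ) * (n : ℝ) ^ (m - k) <
      ∑ _c ∈ (Finset.univ : Finset (Fin k → Fin m)).filter StrictMono,
      δ' * (n : ℝ) ^ k * (n : ℝ) ^ (m - k) := by
    refine Finset.sum_lt_sum_of_nonempty ⟨c₀, hc₀⟩ fun c hc => ?_
    exact mul_lt_mul_of_pos_right (hno c (Finset.mem_filter.1 hc).2) (by positivity)
  rw [Finset.sum_const, nsmul_eq_mul] at h4
  have h5 : ((((Finset.univ : Finset (Fin k → Fin m)).filter StrictMono).card : ℕ) : ℝ) ≤
      (Fintype.card (Fin k → Fin m) : ℝ) := by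
    exact_mod_cast Finset.card_le_univ _
  have h6 : (n : ℝ) ^ k * (n : ℝ) ^ (m - k) = (n : ℝ) ^ m := by
    rw [← pow_add]
    congr 1
    lia
  have hδ0 : 0 ≤ δ' * (n : ℝ) ^ m := by positivity
  have h7 : (((Finset.univ : Finset (Fin k → Fin m)).filter StrictMono).card : ℝ) *
      (δ' * (n : ℝ) ^ k * (n : ℝ) ^ (m - k)) ≤ δ * (n : ℝ) ^ m := by
    rw [mul_assoc δ', h6]
    refine (mul_le_mul_of_nonneg_right h5 hδ0).trans (le_of_eq ?_)
    rw [hδ']
    field_simp
  linarith

theorem blow (K L : ℕ) (hK : 1 ≤ K) (ε : ℝ) (hε : 0 < ε) :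
    ∃ m₀ : ℕ, ∀ m : ℕ, m₀ ≤ m → ∃ n₀ : ℕ, ∀ n : ℕ, n₀ ≤ n →
      ∀ (r : Fin m → Fin m → Fin n → Fin n → Prop) [∀ i j a b, Decidable (r i j a b)],
        (∑ q ∈ (Finset.univ : Finset (Fin m × Fin m)).filter (fun q => q.1 < q.2),
            (((Finset.univ : Finset (Fin n × Fin n)).filter
              (fun p => r q.1 q.2 p.1 p.2)).card : ℝ)) ≤
          (1 / (K : ℝ) - ε) * ((m : ℝ) * (m - 1) / 2) * (n : ℝ) ^ 2 →
        ∃ (c : Fin (K + 1) → Fin m) (A : Fin (K + 1) → Fin L → Fin n), StrictMono c ∧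
          (∀ k, Function.Injective (A k)) ∧
          ∀ k l, k < l → ∀ s t, ¬ r (c k) (c l) (A k s) (A l t) := by
  classical
  obtain ⟨m₁, hm₁⟩ := turan K hK (ε / 2) (by positivity)
  refine ⟨max 2 m₁, fun m hm => ?_⟩
  have hm2 : 2 ≤ m := le_trans (le_max_left _ _) hm
  have hmm₁ : m₁ ≤ m := le_trans (le_max_right _ _) hm
  have hm2r : (2 : ℝ) ≤ m := by exact_mod_cast hm2
  -- the number of candidate `c`
  have hcN : (0 : ℝ) < (Fintype.card (Fin (K + 1) → Fin m) : ℝ) := by
    have : Nonempty (Fin m) := ⟨⟨0, by lia⟩⟩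
    exact_mod_cast Fintype.card_pos
  obtain ⟨n₁, hn₁⟩ := box L (K + 1) (ε / 2 / (Fintype.card (Fin (K + 1) → Fin m) : ℝ))
    (by positivity)
  refine ⟨max 1 n₁, fun n hn r _ hr => ?_⟩
  have hn1 : 1 ≤ n := le_trans (le_max_left _ _) hn
  have hnn₁ : n₁ ≤ n := le_trans (le_max_right _ _) hn
  have hn1r : (1 : ℝ) ≤ n := by exact_mod_cast hn1
  have hMpos : 0 < (m : ℝ) * (m - 1) / 2 := by
    have : (0 : ℝ) < (m : ℝ) - 1 := by linarith
    positivity
  have hΩ : (Fintype.card (Fin m → Fin n) : ℝ) = (n : ℝ) ^ m := by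
    rw [Fintype.card_fun, Fintype.card_fin, Fintype.card_fin, Nat.cast_pow]
  have hsumR : ∑ σ : Fin m → Fin n, ((bad r σ).card : ℝ) ≤
      (1 / (K : ℝ) - ε) * ((m : ℝ) * (m - 1) / 2) * (Fintype.card (Fin m → Fin n) : ℝ) := by
    have h1 : ((∑ σ : Fin m → Fin n, (bad r σ).card : ℕ) : ℝ) ≤
      (((∑ q ∈ (Finset.univ : Finset (Fin m × Fin m)).filter (fun q => q.1 < q.2),
            ((Finset.univ : Finset (Fin n × Fin n)).filter
              (fun p => r q.1 q.2 p.1 p.2)).card) * n ^ (m - 2) : ℕ) : ℝ) := by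
      exact_mod_cast sum_bad r
    push_cast at h1
    refine h1.trans ((mul_le_mul_of_nonneg_right hr (by positivity)).trans (le_of_eq ?_))
    have h6 : (n : ℝ) ^ m = (n : ℝ) ^ 2 * (n : ℝ) ^ (m - 2) := by
      rw [← pow_add]
      congr 1
      lia
    rw [hΩ, h6]
    ring
  have hKle : 1 / (K : ℝ) ≤ 1 := by
    rw [div_le_one (by exact_mod_cast hK)]
    exact_mod_cast hK
  have hT := many_good (fun σ : Fin m → Fin n => (bad r σ).card) (1 / (K : ℝ)) ε
    ((m : ℝ) * (m - 1) / 2) hKle hε hMpos hsumR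
  rw [hΩ] at hT
  -- each good transversal contains a clique
  have hclq : ∀ σ ∈ ((Finset.univ : Finset (Fin m → Fin n)).filter
      fun σ => ((bad r σ).card : ℝ) ≤ (1 / (K : ℝ) - ε / 2) * ((m : ℝ) * (m - 1) / 2)),
      ∃ c : Fin (K + 1) → Fin m, StrictMono c ∧ (fun j => σ (c j)) ∈
        (Finset.univ : Finset (Fin (K + 1) → Fin n)).filter
          fun τ => ∀ k l, k < l → ¬ r (c k) (c l) (τ k) (τ l) := by
    intro σ hσ
    have h1 := (Finset.mem_filter.1 hσ).2
    have h2 : (1 - 1 / (K : ℝ) + ε / 2) * ((m : ℝ) * (m - 1) / 2) ≤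
        ((((Finset.univ : Finset (Fin m × Fin m)).filter (fun q => q.1 < q.2)) \
          bad r σ).card : ℝ) := by
      have h3 : ((((Finset.univ : Finset (Fin m × Fin m)).filter (fun q => q.1 < q.2)) \
          bad r σ).card : ℝ) + (bad r σ).card =
          (((Finset.univ : Finset (Fin m × Fin m)).filter (fun q => q.1 < q.2)).card : ℝ) := by
        exact_mod_cast Finset.card_sdiff_add_card_eq_card (Finset.filter_subset _ _)
      rw [card_pairs] at h3
      linarith
    obtain ⟨c, hc, hc2⟩ := hm₁ m hmm₁ (((Finset.univ : Finset (Fin m × Fin m)).filter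
      (fun q => q.1 < q.2)) \ bad r σ)
      (fun q hq => (Finset.mem_filter.1 (Finset.mem_sdiff.1 hq).1).2) h2
    refine ⟨c, hc, Finset.mem_filter.2 ⟨Finset.mem_univ _, fun k l hkl hrel => ?_⟩⟩
    have h4 := Finset.mem_sdiff.1 (hc2 k l hkl)
    exact h4.2 (Finset.mem_filter.2 ⟨h4.1, hrel⟩)
  obtain ⟨c, hc, hc2⟩ := pigeon hn1 (by lia) (ε / 2) (by positivity) _ hT
    (fun c => (Finset.univ : Finset (Fin (K + 1) → Fin n)).filter
          fun τ => ∀ k l, k < l → ¬ r (c k) (c l) (τ k) (τ l)) hclq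
  obtain ⟨A, hA, hA2⟩ := hn₁ n hnn₁ _ hc2
  refine ⟨c, A, hc, hA, fun k l hkl s t => ?_⟩
  have h1 := (Finset.mem_filter.1 (hA2 (fun j => if j = k then s else t))).2 k l hkl
  simp only [if_true, if_neg hkl.ne'] at h1
  exact h1

end PoolCmb
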