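import Pool.Agent.Work.MP_4c5ddc_co.KST

/-!
# Module Cmb.Box : the box theorem (Erdos 1964) for r parts

A set `H` of functions `Fin r → Fin n` of positive density contains a box: there are injective
`A k : Fin L → Fin n` with `(A 0 (s 0), ..., A (r-1) (s (r-1))) ∈ H` for all `s`.
Induction on `r` with one step of the Kovari-Sos-Turan argument (`UF.kst`).
-/

namespace PoolCmb

open Finset

theorem box (L : ℕ) : ∀ (r : ℕ) (c : ℝ), 0 < c → ∃ n₀ : ℕ, ∀ n : ℕ, n₀ ≤ n →
    ∀ H : Finset (Fin r → Fin n), c * (n : ℝ) ^ r ≤ (H.card : ℝ) →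
      ∃ A : Fin r → Fin L → Fin n, (∀ k, Function.Injective (A k)) ∧
        ∀ s : Fin r → Fin L, (fun k => A k (s k)) ∈ H := by
  classical
  intro r
  induction r with
  | zero =>
    intro c hc
    refine ⟨0, fun n _ H hH => ?_⟩
    have h0 : 0 < H.card := by
      have : (0 : ℝ) < (H.card : ℝ) := lt_of_lt_of_le (by positivity) hH
      exact_mod_cast this
    obtain ⟨f, hf⟩ := Finset.card_pos.1 h0
    refine ⟨Fin.elim0, fun k => k.elim0, fun s => ?_⟩
    have : (fun k : Fin 0 => (Fin.elim0 k : Fin L → Fin n) (s k)) = f := by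
      funext k
      exact k.elim0
    rw [this]
    exact hf
  | succ r ih =>
    intro c hc
    have hc' : 0 < c ^ L / 2 := by positivity
    obtain ⟨n₁, hn₁⟩ := ih (c ^ L / 2) hc'
    obtain ⟨n₂, hn₂⟩ := exists_nat_ge (2 * (L : ℝ) ^ 2 / c ^ L)
    refine ⟨max 1 (max n₁ n₂), fun n hn H hH => ?_⟩
    have hn1 : 1 ≤ n := le_trans (le_max_left _ _) hn
    have hnn₁ : n₁ ≤ n := le_trans (le_trans (le_max_left _ _) (le_max_right _ _)) hn
    have hnn₂ : n₂ ≤ n := le_trans (le_trans (le_max_right _ _) (le_max_right _ _)) hn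
    have : Nonempty (Fin n) := ⟨⟨0, hn1⟩⟩
    let e : (Fin (r + 1) → Fin n) ≃ (Fin n × (Fin r → Fin n)) :=
      (Fin.consEquiv (fun _ : Fin (r + 1) => Fin n)).symm
    have hcard : (H.map e.toEmbedding).card = H.card := Finset.card_map _
    have h1 : c * ((Fintype.card (Fin n) : ℝ) * (Fintype.card (Fin r → Fin n) : ℝ)) ≤
        ((H.map e.toEmbedding).card : ℝ) := by
      rw [hcard]
      refine le_trans (le_of_eq ?_) hH
      simp only [Fintype.card_fin, Fintype.card_fun, Nat.cast_pow]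
      ring
    have h2 : 2 * (L : ℝ) ^ 2 ≤ c ^ L * (Fintype.card (Fin n) : ℝ) := by
      rw [Fintype.card_fin]
      have h3 : 2 * (L : ℝ) ^ 2 / c ^ L ≤ n := hn₂.trans (by exact_mod_cast hnn₂)
      rw [div_le_iff₀ (by positivity)] at h3
      linarith
    obtain ⟨S, hS, hS2⟩ := UF.kst L (H.map e.toEmbedding) c hc.le h1 h2
    rw [Fintype.card_fun, Fintype.card_fin, Fintype.card_fin, Nat.cast_pow] at hS2
    obtain ⟨A, hA, hA2⟩ := hn₁ n hnn₁ _ hS2
    refine ⟨Fin.cons S A, fun k => ?_, fun s => ?_⟩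
    · refine Fin.cases ?_ (fun j => ?_) k
      · simpa using hS
      · simpa using hA j
    · have h3 := (Finset.mem_filter.1 (hA2 (fun k => s k.succ))).2 (s 0)
      obtain ⟨f, hf, hfe⟩ := Finset.mem_map.1 h3
      have h4 : f = fun k => (Fin.cons S A : Fin (r + 1) → Fin L → Fin n) k (s k) := by
        have h5 : f = e.symm (S (s 0), fun k => A k (s k.succ)) := by
          rw [← hfe]
          simp
        rw [h5]
        funext k
        refine Fin.cases ?_ (fun j => ?_) k
        · simp [e]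
        · simp [e]
      rw [← h4]
      exact hf

end PoolCmb
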